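import Pool.Agent.H523R2.AP.Words

set_option autoImplicit false
set_option linter.unusedSectionVars false

/-!
# Linear hashing for corner-free sets in `F_2`-vector spaces
-/

namespace Pool.Agent.Q247.CN

open Finset Pool.Agent.H523R2.AP

/-- `A ⊆ H × H` contains no nontrivial corner. -/
def CFree {H : Type*} [AddCommGroup H] (A : Finset (H × H)) : Prop :=
  ∀ x y z : H, z ≠ 0 → ¬ ((x, y) ∈ A ∧ (x, y + z) ∈ A ∧ (x + z, y) ∈ A)

section
variable {V : Type*} [AddCommGroup V] [Module (ZMod 2) V] [Fintype V] [DecidableEq V]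

theorem phi_add {m : ℕ} (L : Fin m → Module.Dual (ZMod 2) V) (x y : V) :
    phi L (x + y) = phi L x + phi L y := by
  funext i
  simp [phi]

/-- all triples `(x, y, z)`, `z ≠ 0`, whose corner lies in `S` -/
def cors (S : Finset (V × V)) : Finset (V × V × V) :=
  univ.filter fun q => q.2.2 ≠ 0 ∧ (q.1, q.2.1) ∈ S ∧ (q.1, q.2.1 + q.2.2) ∈ S ∧
    (q.1 + q.2.2, q.2.1) ∈ S

theorem card_shift2 {m : ℕ} (B : Finset ((Fin m → ZMod 2) × (Fin m → ZMod 2)))
    (u v : Fin m → ZMod 2) :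
    (univ.filter fun s : (Fin m → ZMod 2) × (Fin m → ZMod 2) => (u + s.1, v + s.2) ∈ B).card =
      B.card := by
  refine card_nbij' (fun s => (u + s.1, v + s.2)) (fun b => (b.1 - u, b.2 - v)) ?_ ?_ ?_ ?_
  · intro s hs
    simpa using hs
  · intro b hb
    simpa using hb
  · intro s _; simp
  · intro b _; simp

theorem hash (m : ℕ) (S : Finset (V × V)) (B : Finset ((Fin m → ZMod 2) × (Fin m → ZMod 2)))
    (hB : CFree B) :
    ∃ A : Finset (V × V), CFree A ∧
      B.card * (2 ^ m * S.card) ≤ A.card * 2 ^ (3 * m) + B.card * (cors S).card := by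
  classical
  set Λ := (Fin m → Module.Dual (ZMod 2) V) with hΛ
  let Sg := (Fin m → ZMod 2) × (Fin m → ZMod 2)
  let S' : Λ × Sg → Finset (V × V) := fun q =>
    S.filter (fun w => (phi q.1 w.1 + q.2.1, phi q.1 w.2 + q.2.2) ∈ B)
  let bad : Λ × Sg → Finset (V × V × V) := fun q => cors (S' q)
  let A : Λ × Sg → Finset (V × V) := fun q => S' q \ (bad q).image fun e => (e.1, e.2.1)
  have hAfree : ∀ q, CFree (A q) := by
    rintro q x y z hz ⟨h1, h2, h3⟩
    have g1 := (mem_sdiff.1 h1).1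
    have g2 := (mem_sdiff.1 h2).1
    have g3 := (mem_sdiff.1 h3).1
    have h4 : (x, y, z) ∈ bad q := mem_filter.2 ⟨mem_univ _, hz, g1, g2, g3⟩
    exact (mem_sdiff.1 h1).2 (mem_image.2 ⟨(x, y, z), h4, rfl⟩)
  have hcard : ∀ q, (S' q).card ≤ (A q).card + (bad q).card := by
    intro q
    have h1 : (S' q).card ≤ (A q).card + ((bad q).image fun e => (e.1, e.2.1)).card := by
      have := card_le_card (show S' q ⊆ A q ∪ (bad q).image (fun e => (e.1, e.2.1)) by
        intro w hw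
        by_cases h : w ∈ (bad q).image fun e => (e.1, e.2.1)
        · exact mem_union_right _ h
        · exact mem_union_left _ (mem_sdiff.2 ⟨hw, h⟩))
      exact this.trans (card_union_le _ _)
    exact h1.trans (Nat.add_le_add_left card_image_le _)
  by_contra hcon
  push Not at hcon
  have hlt : ∀ q, (A q).card * 2 ^ (3 * m) + B.card * (cors S).card
      < B.card * (2 ^ m * S.card) := fun q => hcon (A q) (hAfree q)
  have sumS : ∑ q, (S' q).card = S.card * (Fintype.card Λ * B.card) := by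
    have : ∀ q, (S' q).card = ∑ w ∈ S,
        if (phi q.1 w.1 + q.2.1, phi q.1 w.2 + q.2.2) ∈ B then 1 else 0 := by
      intro q; rw [card_filter]
    rw [sum_congr rfl (fun q _ => this q), sum_comm, ← smul_eq_mul, ← sum_const]
    apply sum_congr rfl
    intro w _
    rw [Fintype.sum_prod_type]
    have h2 : ∀ L : Λ, ∑ s : Sg, (if (phi L w.1 + s.1, phi L w.2 + s.2) ∈ B then 1 else 0) =
        B.card := by
      intro L
      rw [← card_filter, card_shift2]
    rw [sum_congr rfl (fun L _ => h2 L), sum_const, card_univ, smul_eq_mul]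
  have sumBad : 2 ^ m * ∑ q, (bad q).card ≤ (cors S).card * (Fintype.card Λ * B.card) := by
    have h1 : ∀ q, (bad q).card ≤ ∑ e ∈ cors S,
        if (phi q.1 e.2.2 = 0 ∧ (phi q.1 e.1 + q.2.1, phi q.1 e.2.1 + q.2.2) ∈ B) then 1 else 0 := by
      intro q
      rw [← card_filter]
      apply card_le_card
      intro e he
      obtain ⟨_, hne, a1, a2, a3⟩ := mem_filter.1 he
      obtain ⟨b1, c1⟩ := mem_filter.1 a1
      obtain ⟨b2, c2⟩ := mem_filter.1 a2
      obtain ⟨b3, c3⟩ := mem_filter.1 a3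
      refine mem_filter.2 ⟨mem_filter.2 ⟨mem_univ _, hne, b1, b2, b3⟩, ?_, c1⟩
      by_contra h
      apply hB _ _ _ h
      refine ⟨c1, ?_, ?_⟩
      · have : phi q.1 (e.2.1 + e.2.2) + q.2.2 = phi q.1 e.2.1 + q.2.2 + phi q.1 e.2.2 := by
          rw [phi_add, add_right_comm]
        rw [← this]
        exact c2
      · have : phi q.1 (e.1 + e.2.2) + q.2.1 = phi q.1 e.1 + q.2.1 + phi q.1 e.2.2 := by
          rw [phi_add, add_right_comm]
        rw [← this]
        exact c3
    calc 2 ^ m * ∑ q, (bad q).card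
        ≤ 2 ^ m * ∑ q : Λ × Sg, ∑ e ∈ cors S,
          (if (phi q.1 e.2.2 = 0 ∧ (phi q.1 e.1 + q.2.1, phi q.1 e.2.1 + q.2.2) ∈ B)
            then 1 else 0) :=
          Nat.mul_le_mul_left _ (sum_le_sum fun q _ => h1 q)
      _ = ∑ e ∈ cors S, 2 ^ m * ∑ q : Λ × Sg,
          (if (phi q.1 e.2.2 = 0 ∧ (phi q.1 e.1 + q.2.1, phi q.1 e.2.1 + q.2.2) ∈ B)
            then 1 else 0) := by
          rw [sum_comm, mul_sum]
      _ = ∑ e ∈ cors S, Fintype.card Λ * B.card := by
          apply sum_congr rfl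
          intro e he
          have hne : e.2.2 ≠ 0 := (mem_filter.1 he).2.1
          rw [Fintype.sum_prod_type]
          have h2 : ∀ L : Λ, ∑ s : Sg,
              (if (phi L e.2.2 = 0 ∧ (phi L e.1 + s.1, phi L e.2.1 + s.2) ∈ B) then 1 else 0)
              = if phi L e.2.2 = 0 then B.card else 0 := by
            intro L
            by_cases h : phi L e.2.2 = 0
            · simp only [h, true_and, if_true]
              rw [← card_filter, card_shift2]
            · simp [h]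
          rw [sum_congr rfl (fun L _ => h2 L), ← sum_filter, sum_const, smul_eq_mul,
            ← mul_assoc, card_kernel m e.2.2 hne]
      _ = _ := by rw [sum_const, smul_eq_mul]
  have hne : (univ : Finset (Λ × Sg)).Nonempty := univ_nonempty
  have sumlt : ∑ q : Λ × Sg, ((A q).card * 2 ^ (3 * m) + B.card * (cors S).card)
      < ∑ q : Λ × Sg, B.card * (2 ^ m * S.card) :=
    sum_lt_sum_of_nonempty hne fun q _ => hlt q
  have hSgc : Fintype.card Sg = 2 ^ m * 2 ^ m := by
    show Fintype.card ((Fin m → ZMod 2) × (Fin m → ZMod 2)) = _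
    rw [Fintype.card_prod, Fintype.card_fun, Fintype.card_fin, ZMod.card]
  rw [sum_add_distrib, sum_const, sum_const, card_univ, Fintype.card_prod, smul_eq_mul,
    smul_eq_mul, ← sum_mul, hSgc] at sumlt
  have hsum2 : ∑ q, (S' q).card ≤ ∑ q, (A q).card + ∑ q, (bad q).card := by
    rw [← sum_add_distrib]
    exact sum_le_sum fun q _ => hcard q
  rw [sumS] at hsum2
  have e2 : 2 ^ (3 * m) = 2 ^ m * 2 ^ m * 2 ^ m := by
    rw [← pow_add, ← pow_add]
    congr 1
    ring
  rw [e2] at sumlt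
  set a := ∑ q, (A q).card
  set b := ∑ q, (bad q).card
  set P := 2 ^ m
  set c := Fintype.card Λ
  set T := (cors S).card
  have h7 : P * P * P * (S.card * (c * B.card)) ≤ P * P * P * a + P * P * (T * (c * B.card)) := by
    calc _ ≤ P * P * P * (a + b) := Nat.mul_le_mul_left _ hsum2
      _ = P * P * P * a + P * P * (P * b) := by ring
      _ ≤ _ := Nat.add_le_add_left (Nat.mul_le_mul_left _ sumBad) _
  have h8 : a * (P * P * P) + c * (P * P) * (B.card * T) < c * (P * P) * (B.card * (P * S.card)) :=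
    sumlt
  have h9 : P * P * P * (S.card * (c * B.card)) = c * (P * P) * (B.card * (P * S.card)) := by ring
  have h10 : P * P * P * a + P * P * (T * (c * B.card)) =
      a * (P * P * P) + c * (P * P) * (B.card * T) := by ring
  rw [h9, h10] at h7
  exact absurd h8 (not_lt.2 h7)

end

/-- existence of a corner-free set of a given size -/
def HasC (H : Type*) [AddCommGroup H] (t : ℕ) : Prop := ∃ A : Finset (H × H), CFree A ∧ A.card = t

theorem HasC.equiv {V W : Type*} [AddCommGroup V] [AddCommGroup W] {t : ℕ} (e : V ≃+ W)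
    (h : HasC V t) : HasC W t := by
  classical
  obtain ⟨A, hA, ht⟩ := h
  refine ⟨A.map (e.toEquiv.prodCongr e.toEquiv).toEmbedding, ?_, by rw [card_map, ht]⟩
  have key : ∀ x y : W, (x, y) ∈ A.map (e.toEquiv.prodCongr e.toEquiv).toEmbedding ↔
      (e.symm x, e.symm y) ∈ A := by
    intro x y
    rw [mem_map_equiv]
    rfl
  rintro x y z hz ⟨h1, h2, h3⟩
  rw [key] at h1 h2 h3
  rw [map_add] at h2 h3
  exact hA _ _ _ (by simpa using hz) ⟨h1, h2, h3⟩

/-- words of pairs and pairs of words -/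
def pw (N : ℕ) (G : Type*) : (Fin N → G × G) ≃ (Fin N → G) × (Fin N → G) :=
  Equiv.arrowProdEquivProdArrow _ _ _

theorem HasC.pow {V : Type*} [AddCommGroup V] {t : ℕ} (h : HasC V t) (N : ℕ) :
    HasC (Fin N → V) (t ^ N) := by
  classical
  obtain ⟨A, hA, rfl⟩ := h
  refine ⟨(Fintype.piFinset (fun _ : Fin N => A)).map (pw N V).toEmbedding, ?_, ?_⟩
  · have key : ∀ x y : Fin N → V, (x, y) ∈ (Fintype.piFinset (fun _ : Fin N => A)).map
        (pw N V).toEmbedding ↔ ∀ i, (x i, y i) ∈ A := by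
      intro x y
      rw [mem_map_equiv, Fintype.mem_piFinset]
      rfl
    rintro x y z hz ⟨h1, h2, h3⟩
    rw [key] at h1 h2 h3
    obtain ⟨i, hi⟩ := Function.ne_iff.1 hz
    exact hA _ _ _ hi ⟨h1 i, h2 i, h3 i⟩
  · rw [card_map, Fintype.card_piFinset, prod_const, card_univ, Fintype.card_fin]

/-- the number of corners in the set of words with one exceptional letter -/
theorem cors_words_card {V : Type*} [AddCommGroup V] [Fintype V] [DecidableEq V] (N : ℕ)
    (A : Finset (V × V)) (v : V × V) (hA : CFree A) (hA1 : 1 ≤ A.card) :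
    (cors ((words N A v).map (pw N V).toEmbedding)).card ≤
      N ^ 3 * (Fintype.card V ^ 9 * A.card ^ N) := by
  classical
  let F : (Fin 3 → Fin N) → Finset ((Fin N → V) × (Fin N → V) × (Fin N → V)) := fun pos =>
    (Fintype.piFinset (fun i : Fin N =>
      if i ∈ (univ : Finset (Fin 3)).image pos then (univ : Finset ((V × V) × V)) else
        A ×ˢ {0})).image
      (fun f => (fun i => (f i).1.1, fun i => (f i).1.2, fun i => (f i).2))
  have key : ∀ x y : Fin N → V, (x, y) ∈ (words N A v).map (pw N V).toEmbedding ↔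
      ∃ i, (x i, y i) = v ∧ ∀ j, j ≠ i → (x j, y j) ∈ A := by
    intro x y
    rw [mem_map_equiv, mem_words]
    rfl
  have hsub : cors ((words N A v).map (pw N V).toEmbedding) ⊆
      (univ : Finset (Fin 3 → Fin N)).biUnion F := by
    intro e he
    obtain ⟨_, _, h1, h2, h3⟩ := mem_filter.1 he
    rw [key] at h1 h2 h3
    obtain ⟨p1, -, g1⟩ := h1
    obtain ⟨p2, -, g2⟩ := h2
    obtain ⟨p3, -, g3⟩ := h3
    rw [mem_biUnion]
    refine ⟨![p1, p2, p3], mem_univ _, ?_⟩
    refine mem_image.2 ⟨fun i => ((e.1 i, e.2.1 i), e.2.2 i), ?_, rfl⟩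
    rw [Fintype.mem_piFinset]
    intro i
    split_ifs with hi
    · exact mem_univ _
    · have n1 : i ≠ p1 := fun h => hi (mem_image.2 ⟨0, mem_univ _, by simp [h]⟩)
      have n2 : i ≠ p2 := fun h => hi (mem_image.2 ⟨1, mem_univ _, by simp [h]⟩)
      have n3 : i ≠ p3 := fun h => hi (mem_image.2 ⟨2, mem_univ _, by simp [h]⟩)
      have m1 := g1 i n1
      have m2 := g2 i n2
      have m3 := g3 i n3
      have hz : e.2.2 i = 0 := by
        by_contra hne
        exact hA _ _ _ hne ⟨m1, m2, m3⟩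
      exact mem_product.2 ⟨m1, mem_singleton.2 hz⟩
  have hF : ∀ pos, (F pos).card ≤ Fintype.card V ^ 9 * A.card ^ N := by
    intro pos
    refine card_image_le.trans ?_
    rw [Fintype.card_piFinset]
    set D := (univ : Finset (Fin 3)).image pos with hD
    have hDk : D.card ≤ 3 := by
      have := card_image_le (s := (univ : Finset (Fin 3))) (f := pos)
      rwa [card_univ, Fintype.card_fin] at this
    have h1 : ∀ i : Fin N, (if i ∈ D then (univ : Finset ((V × V) × V)) else A ×ˢ {0}).card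
        = if i ∈ D then Fintype.card V ^ 3 else A.card := by
      intro i; split_ifs
      · rw [card_univ, Fintype.card_prod, Fintype.card_prod]; ring
      · rw [card_product, card_singleton, mul_one]
    rw [prod_congr rfl (fun i _ => h1 i), prod_ite, prod_const, prod_const]
    apply Nat.mul_le_mul
    · rw [← pow_mul]
      apply Nat.pow_le_pow_right Fintype.card_pos
      have : (univ.filter (fun i => i ∈ D)).card = D.card := by
        congr 1; ext i; simp
      rw [this]; omega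
    · apply Nat.pow_le_pow_right hA1
      have := card_filter_le (univ : Finset (Fin N)) (fun i => i ∉ D)
      rwa [card_univ, Fintype.card_fin] at this
  calc _ ≤ ((univ : Finset (Fin 3 → Fin N)).biUnion F).card := card_le_card hsub
    _ ≤ ∑ pos, (F pos).card := card_biUnion_le
    _ ≤ ∑ _pos : Fin 3 → Fin N, Fintype.card V ^ 9 * A.card ^ N :=
        sum_le_sum fun pos _ => hF pos
    _ = _ := by
        rw [sum_const, card_univ, Fintype.card_fun, Fintype.card_fin, Fintype.card_fin,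
          smul_eq_mul]

/-- **Explicit improvement of the powers of a corner-free set.** -/
theorem improve {d : ℕ} (A : Finset ((Fin d → ZMod 2) × (Fin d → ZMod 2))) (hA : CFree A)
    (hd : 1 ≤ d) (hR : (2 ^ d) ^ 8 ≤ A.card ^ 5) :
    ∃ t : ℕ, HasC (Fin ((2 ^ d) ^ 44 * d) → ZMod 2) t ∧ 2 * A.card ^ ((2 ^ d) ^ 44) ≤ t := by
  classical
  obtain ⟨R, hRd⟩ : ∃ R, R = A.card := ⟨_, rfl⟩
  obtain ⟨Q, hQ⟩ : ∃ Q, Q = 2 ^ d := ⟨_, rfl⟩
  rw [← hQ] at hR
  rw [← hRd] at hR ⊢
  rw [← hQ]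
  have hQ2 : 2 ≤ Q := by
    rw [hQ]
    calc 2 = 2 ^ 1 := rfl
      _ ≤ 2 ^ d := Nat.pow_le_pow_right (by norm_num) hd
  have hQpos : 1 ≤ Q := by omega
  have hcardG : Fintype.card (Fin d → ZMod 2) = Q := by
    rw [Fintype.card_fun, Fintype.card_fin, ZMod.card, hQ]
  have hR1 : 1 ≤ R := by
    by_contra h
    have : R = 0 := by omega
    rw [this] at hR
    have : 0 < Q ^ 8 := by positivity
    simp at hR
    omega
  have hRQ : R ≤ Q ^ 2 := by
    have := card_le_univ A
    rw [Fintype.card_prod, hcardG, ← hRd] at this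
    rw [sq]
    exact this
  -- a point outside `A`
  obtain ⟨v, hv⟩ : ∃ v, v ∉ A := by
    by_contra hcon
    push Not at hcon
    refine hA 0 0 (fun _ => 1) ?_ ⟨hcon _, hcon _, hcon _⟩
    intro h
    have := congrFun h ⟨0, by omega⟩
    simp at this
  obtain ⟨N, hN⟩ : ∃ N, N = Q ^ 44 := ⟨_, rfl⟩
  rw [← hN]
  have hN1 : 1 ≤ N := by
    rw [hN]
    exact Nat.one_le_pow _ _ hQpos
  obtain ⟨j, hj⟩ : ∃ j, j = 100 := ⟨_, rfl⟩
  obtain ⟨B, hB, hBcard⟩ := (HasC.pow ⟨A, hA, rfl⟩ j :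
    HasC (Fin j → (Fin d → ZMod 2)) _).equiv (powEquiv j d)
  obtain ⟨A', hA', hcard⟩ := hash (j * d) ((words N A v).map (pw N (Fin d → ZMod 2)).toEmbedding)
    B hB
  have hT := cors_words_card N A v hA (hRd ▸ hR1)
  have hS : ((words N A v).map (pw N (Fin d → ZMod 2)).toEmbedding).card = N * R ^ (N - 1) := by
    rw [card_map, card_words N A v hv, ← hRd]
  rw [hcardG, ← hRd] at hT
  rw [← hRd] at hBcard
  rw [hS, hBcard] at hcard
  have e1 : 2 ^ (j * d) = Q ^ j := by rw [hQ, ← pow_mul, mul_comm]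
  have e2 : 2 ^ (3 * (j * d)) = Q ^ j * (Q ^ j * Q ^ j) := by
    rw [← e1, ← pow_add, ← pow_add]; congr 1; ring
  rw [e1, e2] at hcard
  refine ⟨A'.card, HasC.equiv (powEquiv N d) ⟨A', hA', rfl⟩, ?_⟩
  have hRN : R ^ N = R * R ^ (N - 1) := by
    rw [← pow_succ']; congr 1; omega
  -- twice the number of the corners
  have hTS : 2 * (N ^ 3 * (Q ^ 9 * R ^ N)) ≤ Q ^ j * (N * R ^ (N - 1)) := by
    have h3 : Q ^ j = N ^ 2 * (Q ^ 9 * Q ^ 3) := by
      rw [hj, hN, ← pow_mul, ← pow_add, ← pow_add]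
    rw [hRN, h3]
    have h4 : 2 * R ≤ Q ^ 3 := by
      calc 2 * R ≤ Q * Q ^ 2 := Nat.mul_le_mul hQ2 hRQ
        _ = Q ^ 3 := by ring
    calc 2 * (N ^ 3 * (Q ^ 9 * (R * R ^ (N - 1)))) = (2 * R) * (N ^ 3 * Q ^ 9 * R ^ (N - 1)) := by
          ring
      _ ≤ Q ^ 3 * (N ^ 3 * Q ^ 9 * R ^ (N - 1)) := Nat.mul_le_mul_right _ h4
      _ = _ := by ring
  have h5 : R ^ j * (Q ^ j * (N * R ^ (N - 1))) ≤ 2 * (A'.card * (Q ^ j * (Q ^ j * Q ^ j))) := by
    have h6 := Nat.mul_le_mul_left (R ^ j) hT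
    have h7 := Nat.mul_le_mul_left (R ^ j) hTS
    have h8 : R ^ j * (2 * (N ^ 3 * (Q ^ 9 * R ^ N))) =
        2 * (R ^ j * (N ^ 3 * (Q ^ 9 * R ^ N))) := by ring
    omega
  have hQj : 0 < Q ^ j := by positivity
  have h8 : R ^ j * (N * R ^ (N - 1)) ≤ 2 * (A'.card * (Q ^ j * Q ^ j)) := by
    apply Nat.le_of_mul_le_mul_left _ hQj
    calc Q ^ j * (R ^ j * (N * R ^ (N - 1))) = R ^ j * (Q ^ j * (N * R ^ (N - 1))) := by ring
      _ ≤ 2 * (A'.card * (Q ^ j * (Q ^ j * Q ^ j))) := h5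
      _ = _ := by ring
  -- `R ^ 100 ≥ Q ^ 160`
  have h9 : Q ^ 160 ≤ R ^ j := by
    have := Nat.pow_le_pow_left hR 20
    rw [← pow_mul, ← pow_mul] at this
    rw [hj]
    exact this
  have h10 : Q ^ 160 * (N * R ^ (N - 1)) ≤ Q ^ 160 * (2 * (A'.card * Q ^ 40)) := by
    calc Q ^ 160 * (N * R ^ (N - 1)) ≤ R ^ j * (N * R ^ (N - 1)) := Nat.mul_le_mul_right _ h9
      _ ≤ 2 * (A'.card * (Q ^ j * Q ^ j)) := h8
      _ = _ := by rw [hj]; ring
  have h11 := Nat.le_of_mul_le_mul_left h10 (by positivity)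
  -- `N = Q ^ 44`
  have h12 : Q ^ 40 * (Q ^ 4 * R ^ (N - 1)) ≤ Q ^ 40 * (2 * A'.card) := by
    calc Q ^ 40 * (Q ^ 4 * R ^ (N - 1)) = N * R ^ (N - 1) := by rw [hN]; ring
      _ ≤ 2 * (A'.card * Q ^ 40) := h11
      _ = _ := by ring
  have h13 := Nat.le_of_mul_le_mul_left h12 (by positivity)
  have h14 : 4 * R ≤ Q ^ 4 := by
    calc 4 * R ≤ Q ^ 2 * Q ^ 2 := Nat.mul_le_mul (by nlinarith) hRQ
      _ = Q ^ 4 := by ring
  have h15 : 4 * R ^ N ≤ 2 * A'.card := by
    calc 4 * R ^ N = (4 * R) * R ^ (N - 1) := by rw [hRN]; ring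
      _ ≤ Q ^ 4 * R ^ (N - 1) := Nat.mul_le_mul_right _ h14
      _ ≤ _ := h13
  omega

end Pool.Agent.Q247.CN
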